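import Pool.Agent.HomZ.SubDef

/-!
# Subdivisions: balls (helper98)

`near_z`: induction on the walk from `y` to `inl i`: height (`0` for `inl`, `s + 1` for `inr (q, s)`) at most the length of
the walk, base `i`; the middle edge is only reached with height `L`.
`far_z`: if no `inl` is at distance at most `d` from `c`, the ball is on one edge (induction on the walk from `c`).
`ball`: if `Near (sub B L) d c (inl i)` for some `i`, then `i₀ = i` (`near_z` for `2 * d`); otherwise `i₀ = base c`.
-/

set_option autoImplicit false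

namespace Pool.Agent.HomZ

open Finset Classical Pool.Agent.HomV Pool.Agent.HomW

variable {U₀ : Type} [Fintype U₀] {B : SimpleGraph U₀} {L : ℕ}

/-- the distance from the branch vertex -/
private def ht : SW B L → ℕ
  | Sum.inl _ => 0
  | Sum.inr (_, s) => s.val + 1

private theorem walk_z {y z : SW B L} (w : (sub B L).Walk y z) : ∀ i : U₀, z = Sum.inl i →
    w.length ≤ L → base y = i ∧ ht y ≤ w.length := by
  induction w with
  | nil =>
    rintro i rfl _
    exact ⟨rfl, le_rfl⟩
  | @cons y y' z h p ih =>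
    intro i hz hl
    rw [SimpleGraph.Walk.length_cons] at hl
    obtain ⟨h1, h2⟩ := ih i hz (by omega)
    rw [SimpleGraph.Walk.length_cons]
    have h3 : SR B L y y' := h
    rcases y with j | ⟨q, s⟩
    · rcases y' with j' | ⟨q', s'⟩
      · exact absurd h3 (fun h => h)
      · refine ⟨?_, Nat.zero_le _⟩
        have h4 : q'.1.1 = j ∧ s'.val = 0 := h3
        have h5 : q'.1.1 = i := h1
        rw [← h5, h4.1]
        rfl
    · rcases y' with j' | ⟨q', s'⟩
      · have h4 : q.1.1 = j' ∧ s.val = 0 := h3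
        have h5 : j' = i := h1
        refine ⟨h4.1.trans h5, ?_⟩
        show s.val + 1 ≤ _
        omega
      · have h4 : (q = q' ∧ (s.val + 1 = s'.val ∨ s'.val + 1 = s.val)) ∨
            (q'.1 = q.1.swap ∧ s.val + 1 = L ∧ s'.val + 1 = L) := h3
        have h5 : q'.1.1 = i := h1
        have h6 : s'.val + 1 ≤ p.length := h2
        rcases h4 with ⟨h7, h8⟩ | ⟨-, -, h8⟩
        · refine ⟨?_, ?_⟩
          · show q.1.1 = i
            rw [h7, h5]
          · show s.val + 1 ≤ _
            omega
        · omega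

theorem near_z {d : ℕ} (hd : d ≤ L) {i : U₀} {y : SW B L} (h : Near (sub B L) d y (Sum.inl i)) :
    base y = i := by
  obtain ⟨w, hw⟩ := h
  exact (walk_z w i rfl (hw.trans hd)).1

private theorem near_mono {d d' : ℕ} (hd : d ≤ d') {u v : SW B L} (h : Near (sub B L) d u v) :
    Near (sub B L) d' u v := by
  obtain ⟨w, hw⟩ := h
  exact ⟨w, hw.trans hd⟩

private theorem near_tri {d d' : ℕ} {u v x : SW B L} (h : Near (sub B L) d u v)
    (h' : Near (sub B L) d' u x) : Near (sub B L) (d + d') v x := by
  obtain ⟨w, hw⟩ := h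
  obtain ⟨w', hw'⟩ := h'
  refine ⟨w.reverse.append w', ?_⟩
  rw [SimpleGraph.Walk.length_append, SimpleGraph.Walk.length_reverse]
  omega

private theorem far_z {v c : SW B L} (w : (sub B L).Walk v c) :
    ∀ (q : {q : U₀ × U₀ // B.Adj q.1 q.2}) (s : Fin L), c = Sum.inr (q, s) →
      (∀ i, ¬ Near (sub B L) w.length c (Sum.inl i)) →
      ∃ (q' : {q : U₀ × U₀ // B.Adj q.1 q.2}) (s' : Fin L), v = Sum.inr (q', s') ∧
        (q' = q ∨ q'.1 = q.1.swap) := by
  induction w with
  | nil =>
    rintro q s rfl _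
    exact ⟨q, s, rfl, Or.inl rfl⟩
  | @cons v v' c h p ih =>
    intro q s hc hno
    obtain ⟨q', s', h1, h2⟩ := ih q s hc fun i hi => hno i (near_mono (by simp) hi)
    have h3 : SR B L v v' := h
    rcases v with j | ⟨q₁, s₁⟩
    · exact absurd ⟨(SimpleGraph.Walk.cons h p).reverse, by simp⟩ (hno j)
    · refine ⟨q₁, s₁, rfl, ?_⟩
      rw [h1] at h3
      have h4 : (q₁ = q' ∧ (s₁.val + 1 = s'.val ∨ s'.val + 1 = s₁.val)) ∨
          (q'.1 = q₁.1.swap ∧ s₁.val + 1 = L ∧ s'.val + 1 = L) := h3
      rcases h4 with ⟨h5, -⟩ | ⟨h5, -⟩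
      · rw [h5]
        exact h2
      · rcases h2 with h2 | h2
        · right
          rw [← h2, h5, Prod.swap_swap]
        · left
          apply Subtype.ext
          rw [h5] at h2
          have h6 := congrArg Prod.swap h2
          rwa [Prod.swap_swap, Prod.swap_swap] at h6

theorem ball {d : ℕ} (hd : 2 * d ≤ L) (c : SW B L) : ∃ i₀ : U₀,
    (∀ i, Near (sub B L) d c (Sum.inl i) → i = i₀) ∧
    ∀ i j, ∀ v ∈ regS B L ({i, j} : Finset U₀), Near (sub B L) d c v → i₀ = i ∨ i₀ = j := by
  by_cases hex : ∃ i, Near (sub B L) d c (Sum.inl i)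
  · obtain ⟨i₀, hi₀⟩ := hex
    refine ⟨i₀, fun i hi => ?_, fun i j v hv hcv => ?_⟩
    · have h1 := near_z (L := L) (by omega) (near_tri hi hi₀)
      exact h1
    · have h1 := near_z (L := L) (by omega) (near_tri hcv hi₀)
      rcases v with x | ⟨q, s⟩
      · rw [mem_regS_inl, Finset.mem_insert, Finset.mem_singleton] at hv
        have h2 : x = i₀ := h1
        rw [← h2]
        exact hv
      · rw [mem_regS_inr, Finset.mem_insert, Finset.mem_singleton] at hv
        have h2 : q.1.1 = i₀ := h1
        rw [← h2]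
        exact hv.1
  · push Not at hex
    rcases c with i₀ | ⟨q, s⟩
    · exact absurd ⟨SimpleGraph.Walk.nil, by simp⟩ (hex i₀)
    · refine ⟨q.1.1, fun i hi => absurd hi (hex i), fun i j v hv hcv => ?_⟩
      obtain ⟨w, hw⟩ := hcv
      obtain ⟨q', s', h1, h2⟩ := far_z w.reverse q s rfl fun i hi => hex i (near_mono (by
        rw [SimpleGraph.Walk.length_reverse]
        exact hw) hi)
      rw [h1, mem_regS_inr, Finset.mem_insert, Finset.mem_singleton, Finset.mem_insert,
        Finset.mem_singleton] at hv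
      rcases h2 with h2 | h2
      · rw [h2] at hv
        exact hv.1
      · rw [h2] at hv
        exact hv.2

end Pool.Agent.HomZ
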