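import Pool.Agent.HomZ.Iso
import Pool.Agent.HomT.Grid

/-!
# Cells over a connected graph (helper32)

`cellG Γ ix`: every vertex `u` of `Γ` is replaced by a copy of the graph of the affine plane over
`ZMod p`, for an edge `uv` of `Γ` the points `(x, ix v)` of the cell `u` and `(x, ix u)` of the cell
`v` are joined.
-/

set_option autoImplicit false

namespace Pool.Agent.HomZ

open Finset Classical Pool.Agent.HomV Pool.Agent.HomW
open Pool.Agent.HomT (affX_good cell_const no_pp)

/-- a property which is constant along the edges inside `Y` is constant on `Y` -/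
def ConnP {W : Type} (Γ : SimpleGraph W) (Y : Set W) : Prop :=
  ∀ s : W → Prop, (∀ u ∈ Y, ∀ v ∈ Y, Γ.Adj u v → (s u ↔ s v)) → ∀ u ∈ Y, ∀ v ∈ Y, (s u ↔ s v)

/-- the edges between cells -/
def CEx {W : Type} (Γ : SimpleGraph W) {p : ℕ} (ix : W → ZMod p) (a b : W × AffU p) : Prop :=
  Γ.Adj a.1 b.1 ∧ ∃ x : ZMod p, a.2 = Sum.inl (x, ix b.1) ∧ b.2 = Sum.inl (x, ix a.1)

/-- the graph of cells -/
def cellG {W : Type} (Γ : SimpleGraph W) {p : ℕ} (ix : W → ZMod p) :
    SimpleGraph (W × AffU p) where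
  Adj a b := (a.1 = b.1 ∧ (affX p).Adj a.2 b.2) ∨ CEx Γ ix a b
  symm := ⟨fun _ _ h => h.elim (fun h => Or.inl ⟨h.1.symm, h.2.symm⟩) fun h =>
    Or.inr ⟨h.1.symm, by
      obtain ⟨x, h1, h2⟩ := h.2
      exact ⟨x, h2, h1⟩⟩⟩
  loopless := ⟨fun _ h => h.elim (fun h => h.2.ne rfl) fun h => h.1.ne rfl⟩

variable {W : Type} [Fintype W] {Γ : SimpleGraph W} {p : ℕ} [NeZero p] {ix : W → ZMod p}

/-- the cells over `Y` -/
noncomputable def cells (p : ℕ) [NeZero p] (Y : Finset W) : Finset (W × AffU p) :=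
  univ.filter fun a => a.1 ∈ Y

theorem mem_cells {Y : Finset W} {a : W × AffU p} : a ∈ cells p Y ↔ a.1 ∈ Y := by
  unfold cells
  rw [Finset.mem_filter]
  exact ⟨fun h => h.2, fun h => ⟨Finset.mem_univ _, h⟩⟩

omit [Fintype W] [NeZero p] in
theorem CEx.symm {a b : W × AffU p} (h : CEx Γ ix a b) : CEx Γ ix b a := by
  obtain ⟨h0, x, h1, h2⟩ := h
  exact ⟨h0.symm, x, h2, h1⟩

omit [Fintype W] [NeZero p] in
theorem CEx.unique (hix : Function.Injective ix) {a b b' : W × AffU p} (h : CEx Γ ix a b)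
    (h' : CEx Γ ix a b') : b = b' := by
  obtain ⟨-, x, h1, h2⟩ := h
  obtain ⟨-, x', h1', h2'⟩ := h'
  rw [h1] at h1'
  have h3 := Sum.inl.inj h1'
  have h4 : x = x' := congrArg Prod.fst h3
  have h5 : b.1 = b'.1 := hix (congrArg Prod.snd h3)
  refine Prod.ext h5 ?_
  rw [h2, h2', h4]

omit [Fintype W] [NeZero p] in
theorem CEx.ne {a b : W × AffU p} (h : CEx Γ ix a b) : a.1 ≠ b.1 := h.1.ne

omit [Fintype W] [NeZero p] in
theorem CEx.point {a b : W × AffU p} (h : CEx Γ ix a b) : ∃ P, a.2 = Sum.inl P := by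
  obtain ⟨-, x, h1, -⟩ := h
  exact ⟨_, h1⟩

omit [Fintype W] [NeZero p] in
theorem cell_tri (hix : Function.Injective ix) {a b c : W × AffU p} (h1 : CEx Γ ix a b)
    (h2 : (cellG Γ ix).Adj b c) (h3 : (cellG Γ ix).Adj c a) : False := by
  rcases h2 with h2 | h2
  · rcases h3 with h3 | h3
    · exact h1.ne (h3.1.symm.trans h2.1.symm)
    · have h4 := h1.unique hix h3.symm
      rw [h4] at h2
      exact h2.2.ne rfl
  · have h4 := h1.symm.unique hix h2
    rw [h4] at h3
    exact h3.ne rfl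

omit [Fintype W] [NeZero p] in
theorem cell_c4 (hix : Function.Injective ix) {a b c d : W × AffU p} (h1 : CEx Γ ix a b)
    (h2 : (cellG Γ ix).Adj b c) (h3 : (cellG Γ ix).Adj c d) (h4 : (cellG Γ ix).Adj d a) :
    a = c ∨ b = d := by
  rcases h2 with h2 | h2
  · rcases h4 with h4 | h4
    · rcases h3 with h3 | h3
      · exact absurd (h4.1.symm.trans (h3.1.symm.trans h2.1.symm)) h1.ne
      · obtain ⟨P, hP⟩ := h1.symm.point
        obtain ⟨P', hP'⟩ := h3.point
        exact (no_pp h2.2 hP hP').elim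
    · exact Or.inr (h1.unique hix h4.symm)
  · exact Or.inl (h1.symm.unique hix h2)

omit [Fintype W] [NeZero p] in
theorem cell_port [Fact p.Prime] (S : Finset (W × AffU p)) (hS : 2 * S.card < p) (u v : W) :
    ∃ x : ZMod p, (u, (Sum.inl (x, ix v) : AffU p)) ∉ S ∧
      (v, (Sum.inl (x, ix u) : AffU p)) ∉ S := by
  by_contra hno
  push Not at hno
  set A : Finset (ZMod p) := univ.filter
    (fun x => ((u, (Sum.inl (x, ix v) : AffU p)) : W × AffU p) ∈ S) with hA
  set B : Finset (ZMod p) := univ.filter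
    (fun x => ((v, (Sum.inl (x, ix u) : AffU p)) : W × AffU p) ∈ S) with hB
  have hcov : (univ : Finset (ZMod p)) ⊆ A ∪ B := by
    intro x _
    rw [Finset.mem_union]
    by_cases h2 : ((u, (Sum.inl (x, ix v) : AffU p)) : W × AffU p) ∈ S
    · exact Or.inl (by rw [hA, Finset.mem_filter]; exact ⟨Finset.mem_univ _, h2⟩)
    · exact Or.inr (by rw [hB, Finset.mem_filter]; exact ⟨Finset.mem_univ _, hno x h2⟩)
  have hAc : A.card ≤ S.card := card_pre_le
    (fun x : ZMod p => ((u, (Sum.inl (x, ix v) : AffU p)) : W × AffU p)) A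
    (fun m _ m' _ h => congrArg Prod.fst (Sum.inl.inj (congrArg Prod.snd h))) S
    (fun m hm => (Finset.mem_filter.1 hm).2)
  have hBc : B.card ≤ S.card := card_pre_le
    (fun x : ZMod p => ((v, (Sum.inl (x, ix u) : AffU p)) : W × AffU p)) B
    (fun m _ m' _ h => congrArg Prod.fst (Sum.inl.inj (congrArg Prod.snd h))) S
    (fun m hm => (Finset.mem_filter.1 hm).2)
  have h1 := Finset.card_le_card hcov
  rw [Finset.card_univ, ZMod.card] at h1
  have h3 := Finset.card_union_le A B
  omega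

theorem cellG_good (Q : ℕ) [Fact p.Prime] (hp : 5 * Q + 10 ≤ p) (hix : Function.Injective ix)
    {Y : Finset W} (hne : Y.Nonempty) (hc : ConnP Γ (Y : Set W)) :
    Good (cellG Γ ix) (cells p Y) Q := by
  refine ⟨?_, ?_, ?_, ?_, ?_⟩
  · intro a b c h1 h2 h3
    rcases id h1 with h1' | h1'
    · rcases id h2 with h2' | h2'
      · rcases id h3 with h3' | h3'
        · exact (affX_good Q p hp).tri _ _ _ h1'.2 h2'.2 h3'.2
        · exact cell_tri hix h3' h1 h2
      · exact cell_tri hix h2' h3 h1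
    · exact cell_tri hix h1' h2 h3
  · intro a b c d h1 h2 h3 h4
    rcases id h1 with h1' | h1'
    · rcases id h2 with h2' | h2'
      · rcases id h3 with h3' | h3'
        · rcases id h4 with h4' | h4'
          · rcases (affX_good Q p hp).c4 _ _ _ _ h1'.2 h2'.2 h3'.2 h4'.2 with h | h
            · exact Or.inl (Prod.ext (h1'.1.trans h2'.1) h)
            · exact Or.inr (Prod.ext (h2'.1.trans h3'.1) h)
          · rcases cell_c4 hix h4' h1 h2 h3 with h | h
            · exact Or.inr h.symm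
            · exact Or.inl h
        · rcases cell_c4 hix h3' h4 h1 h2 with h | h
          · exact Or.inl h.symm
          · exact Or.inr h.symm
      · rcases cell_c4 hix h2' h3 h4 h1 with h | h
        · exact Or.inr h
        · exact Or.inl h.symm
    · exact cell_c4 hix h1' h2 h3 h4
  · intro i hi
    have h1 := (affX_good Q p hp).deg i.2 (Finset.mem_univ _)
    refine h1.trans (Finset.card_le_card_of_injOn (fun j => (i.1, j)) ?_ ?_)
    · intro j hj
      have hj' := (Finset.mem_filter.1 (Finset.mem_coe.1 hj)).2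
      have hr : (i.1, j) ∈ cells p Y := by
        rw [mem_cells] at hi ⊢
        exact hi
      exact Finset.mem_coe.2 (Finset.mem_filter.2 ⟨hr, Or.inl ⟨rfl, hj'⟩⟩)
    · intro a _ b _ h
      exact congrArg Prod.snd h
  · intro S hS T hT hTne hRne
    by_contra hcon
    push Not at hcon
    have key : ∀ i j, i ∉ S → j ∉ S → j ∈ cells p Y → (cellG Γ ix).Adj i j → i ∈ T →
        j ∈ T := by
      intro i j _ hj hjr hij hi
      by_contra hjT
      exact hcon i hi j (by simp [hj, hjT, hjr]) hij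
    have side : ∀ i j, i ∉ S → j ∉ S → i ∈ cells p Y → j ∈ cells p Y →
        (cellG Γ ix).Adj i j → (i ∈ T ↔ j ∈ T) :=
      fun i j hi hj hir hjr hij => ⟨key i j hi hj hjr hij, key j i hj hi hir hij.symm⟩
    -- in a cell
    have cell : ∀ (g : W) (a b : AffU p), g ∈ Y →
        (g, a) ∉ S → (g, b) ∉ S → ((g, a) ∈ T ↔ (g, b) ∈ T) := by
      intro g a b hg ha hb
      have hSg : (univ.filter fun a : AffU p => ((g, a) : W × AffU p) ∈ S).card < Q := by
        refine lt_of_le_of_lt (Finset.card_le_card_of_injOn (fun j => (g, j)) ?_ ?_) hS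
        · intro j hj
          exact Finset.mem_coe.2 (Finset.mem_filter.1 (Finset.mem_coe.1 hj)).2
        · intro a _ b _ h
          exact congrArg Prod.snd h
      refine cell_const Q p hp (univ.filter fun a : AffU p => ((g, a) : W × AffU p) ∈ S) hSg
        (fun a => (g, a) ∈ T) (fun i j hi hj hij => ?_) a b ?_ ?_
      · refine side _ _ (fun h => hi ?_) (fun h => hj ?_) (mem_cells.2 hg) (mem_cells.2 hg)
          (Or.inl ⟨rfl, hij⟩)
        · exact Finset.mem_filter.2 ⟨Finset.mem_univ _, h⟩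
        · exact Finset.mem_filter.2 ⟨Finset.mem_univ _, h⟩
      · exact fun h => ha (Finset.mem_filter.1 h).2
      · exact fun h => hb (Finset.mem_filter.1 h).2
    have hall := hc (fun g => ∀ a : AffU p, (g, a) ∉ S → (g, a) ∈ T) (by
      intro u hu v hv huv
      obtain ⟨x, hx1, hx2⟩ := cell_port (ix := ix) S (by omega) u v
      have hs := side _ _ hx1 hx2 (mem_cells.2 hu) (mem_cells.2 hv)
        (Or.inr ⟨huv, x, rfl, rfl⟩)
      constructor
      · intro h a ha
        exact (cell _ _ _ hv hx2 ha).1 (hs.1 (h _ hx1))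
      · intro h a ha
        exact (cell _ _ _ hu hx1 ha).1 (hs.2 (h _ hx2)))
    obtain ⟨i, hi⟩ := hTne
    obtain ⟨j, hj⟩ := hRne
    have hi' : i ∈ cells p Y ∧ i ∉ S := by simpa using hT hi
    have hj' : (j ∈ cells p Y ∧ j ∉ S) ∧ j ∉ T := by simpa using hj
    have hir := mem_cells.1 hi'.1
    have hjr := mem_cells.1 hj'.1.1
    have h1 : ∀ a : AffU p, (i.1, a) ∉ S → (i.1, a) ∈ T :=
      fun a ha => (cell i.1 i.2 a hir hi'.2 ha).1 hi
    exact hj'.2 ((hall i.1 hir j.1 hjr).1 h1 j.2 hj'.1.2)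
  · obtain ⟨u, hu⟩ := hne
    exact ⟨(u, Sum.inl (0, 0)), mem_cells.2 hu⟩

omit [Fintype W] [NeZero p] in
theorem near_cell {d : ℕ} {a b : W × AffU p} (h : Near (cellG Γ ix) d a b) :
    Near Γ d a.1 b.1 := by
  obtain ⟨w, hw⟩ := h
  induction w generalizing d with
  | nil => exact ⟨SimpleGraph.Walk.nil, by simp⟩
  | cons h w ih =>
    rw [SimpleGraph.Walk.length_cons] at hw
    obtain ⟨w', hw'⟩ := ih (d := d - 1) (by omega)
    rcases h with h | h
    · rw [h.1]
      exact ⟨w', by omega⟩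
    · exact ⟨SimpleGraph.Walk.cons h.1 w', by rw [SimpleGraph.Walk.length_cons]; omega⟩

/-- a good set is connected -/
theorem good_connP {U : Type} [Fintype U] {X : SimpleGraph U} {Y : Finset U} {Q : ℕ} (hQ : 0 < Q)
    (hG : Good X Y Q) : ConnP X (Y : Set U) := by
  intro s hs
  have key : ∀ u ∈ Y, ∀ v ∈ Y, s u → s v := by
    intro u hu v hv hsu
    by_contra hsv
    obtain ⟨a, ha, b, hb, hab⟩ := hG.conn ∅ (by simpa using hQ) (Y.filter fun a => s a)
      (fun a ha => by
        have := (Finset.mem_filter.1 ha).1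
        simpa using this) ⟨u, Finset.mem_filter.2 ⟨hu, hsu⟩⟩ ⟨v, by simp [hv, hsv]⟩
    have ha' := Finset.mem_filter.1 ha
    have hb' : b ∈ Y ∧ ¬ s b := by
      have : b ∈ Y ∧ (b ∈ Y → ¬ s b) := by simpa using hb
      exact ⟨this.1, this.2 this.1⟩
    exact hb'.2 ((hs a (by simpa using ha'.1) b (by simpa using hb'.1) hab).1 ha'.2)
  exact fun u hu v hv => ⟨key u (by simpa using hu) v (by simpa using hv),
    key v (by simpa using hv) u (by simpa using hu)⟩

/-- a good set is connected by walks -/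
theorem good_walk {U : Type} [Fintype U] {X : SimpleGraph U} {Y : Finset U} {Q : ℕ} (hQ : 0 < Q)
    (hG : Good X Y Q) {u v : U} (hu : u ∈ Y) (hv : v ∈ Y) :
    ∃ w : X.Walk u v, ∀ x ∈ w.support, x ∈ Y := by
  refine (good_connP hQ hG (fun v => ∃ w : X.Walk u v, ∀ x ∈ w.support, x ∈ Y) ?_ u
    (by simpa using hu) v (by simpa using hv)).1 ⟨SimpleGraph.Walk.nil, by simpa using hu⟩
  have key : ∀ a ∈ Y, ∀ b ∈ Y, X.Adj a b → (∃ w : X.Walk u a, ∀ x ∈ w.support, x ∈ Y) →
      ∃ w : X.Walk u b, ∀ x ∈ w.support, x ∈ Y := by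
    rintro a ha b hb hab ⟨w, hw⟩
    refine ⟨w.concat hab, fun x hx => ?_⟩
    rw [SimpleGraph.Walk.support_concat] at hx
    simp only [List.mem_append, List.mem_singleton] at hx
    rcases hx with hx | rfl
    · exact hw x hx
    · exact hb
  intro a ha b hb hab
  have ha' : a ∈ Y := by simpa using ha
  have hb' : b ∈ Y := by simpa using hb
  exact ⟨key a ha' b hb' hab, key b hb' a ha' hab.symm⟩

end Pool.Agent.HomZ
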