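import Pool.Agent.HomZ.Def
import Pool.Agent.HomW.Res

/-!
# Pull-back of homological copies along walks (helper20)

`X` contains a subdivision of `B`: the vertex `i` of `B` is `x i`, the edge `e` is a walk with the edges `γ e`. A copy of
`X` in `F` gives a copy of `B` in the graph obtained from `F` by contracting the fibres of `p`, if the fibres are small
compared with the walks. `pb γ K e`: the sum of `K` along the walk; for a cut `K = dl X Y r` it is `r (x i) + r (x j)`.
-/

set_option autoImplicit false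

namespace Pool.Agent.HomZ

open Finset Classical Pool.Agent.HomV

variable {U : Type} [Fintype U] {V : Type} [Fintype V] {X : SimpleGraph U} {Y : Finset U}
  {W : Type} [Fintype W] {U₀ : Type} [Fintype U₀]

/-- the sum along the walks -/
private noncomputable def pb (γ : Sym2 U₀ → List (Sym2 U)) (K : Ch U) (e : Sym2 U₀) : ZMod 2 :=
  ((γ e).map K).sum

private theorem pb_add (γ : Sym2 U₀ → List (Sym2 U)) (K L : Ch U) (e : Sym2 U₀) :
    pb γ (K + L) e = pb γ K e + pb γ L e := by
  unfold pb
  induction γ e with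
  | nil => simp
  | cons a l ih =>
    rw [List.map_cons, List.map_cons, List.map_cons, List.sum_cons, List.sum_cons, List.sum_cons, ih,
      Pi.add_apply]
    ring

private theorem pb_zero (γ : Sym2 U₀ → List (Sym2 U)) (e : Sym2 U₀) : pb γ (0 : Ch U) e = 0 := by
  unfold pb
  induction γ e with
  | nil => rfl
  | cons a l ih =>
    rw [List.map_cons, List.sum_cons, ih]
    rfl

private theorem pb_sum {ι : Type} (γ : Sym2 U₀ → List (Sym2 U)) (s : Finset ι) (K : ι → Ch U)
    (e : Sym2 U₀) : pb γ (∑ a ∈ s, K a) e = ∑ a ∈ s, pb γ (K a) e := by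
  induction s using Finset.induction_on with
  | empty => rw [Finset.sum_empty, Finset.sum_empty, pb_zero]
  | insert a s ha ih => rw [Finset.sum_insert ha, Finset.sum_insert ha, pb_add, ih]

private theorem pb_ne (γ : Sym2 U₀ → List (Sym2 U)) (K : Ch U) (e : Sym2 U₀) (h : pb γ K e ≠ 0) :
    ∃ e' ∈ γ e, K e' ≠ 0 := by
  by_contra hcon
  apply h
  unfold pb
  refine List.sum_eq_zero fun x hx => ?_
  obtain ⟨e', he', rfl⟩ := List.mem_map.mp hx
  by_contra h0
  exact hcon ⟨e', he', h0⟩

private theorem z2_self (a : ZMod 2) : a + a = 0 := by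
  revert a
  decide

/-- a cut telescopes along a walk -/
private theorem walk_sum (r : U → ZMod 2) {u v : U} (w : X.Walk u v) (h : ∀ x ∈ w.support, x ∈ Y) :
    (w.edges.map (dl X Y r)).sum = r u + r v := by
  induction w with
  | nil =>
    rw [SimpleGraph.Walk.edges_nil, List.map_nil, List.sum_nil, z2_self]
  | cons hadj w ih =>
    rename_i u v' v
    rw [SimpleGraph.Walk.edges_cons, List.map_cons, List.sum_cons, ih fun x hx => h x (by
      rw [SimpleGraph.Walk.support_cons]
      exact List.mem_cons_of_mem _ hx), dl_mk, if_pos ⟨hadj, h _ (by simp), h _ (by simp)⟩]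
    calc r u + r v' + (r v' + r v) = r u + r v + (r v' + r v') := by ring
      _ = r u + r v := by rw [z2_self, add_zero]

private theorem pb_dl {γ : Sym2 U₀ → List (Sym2 U)} {x : U₀ → U} {i j : U₀} (w : X.Walk (x i) (x j))
    (hw : w.edges.Perm (γ s(i, j))) (h : ∀ v ∈ w.support, v ∈ Y) (r : U → ZMod 2) :
    pb γ (dl X Y r) s(i, j) = r (x i) + r (x j) := by
  unfold pb
  rw [← walk_sum r w h]
  exact ((hw.map _).sum_eq).symm

private theorem sum_sym_zero (s : Finset V) (y : V → V → ZMod 2) (hs : ∀ a b, y a b = y b a)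
    (h0 : ∀ a, y a a = 0) : ∑ a ∈ s, ∑ b ∈ s, y a b = 0 := by
  induction s using Finset.induction_on with
  | empty => simp
  | insert a s ha ih =>
    rw [Finset.sum_insert ha, Finset.sum_insert ha, h0, zero_add]
    have h1 : ∀ x ∈ s, ∑ b ∈ insert a s, y x b = y a x + ∑ b ∈ s, y x b := by
      intro x _
      rw [Finset.sum_insert ha, hs]
    rw [Finset.sum_congr rfl h1, Finset.sum_add_distrib, ih, add_zero, z2_self]

/-- a weighted sum of stars is a cut -/
private theorem dl_push (f : V → U) (s : Finset V) (t : V → ZMod 2) :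
    dl X Y (fun i => ∑ a ∈ s, if f a = i then t a else 0) =
      ∑ a ∈ s, t a • star X Y (f a) := by
  funext e
  unfold dl
  rw [Finset.sum_apply]
  have h1 : ∀ i : U, (∑ a ∈ s, if f a = i then t a else 0) * star X Y i e =
      ∑ a ∈ s, if f a = i then t a * star X Y (f a) e else 0 := by
    intro i
    rw [Finset.sum_mul]
    refine Finset.sum_congr rfl fun a _ => ?_
    by_cases h : f a = i
    · rw [if_pos h, if_pos h, h]
    · rw [if_neg h, if_neg h, zero_mul]
  rw [Finset.sum_congr rfl fun i _ => h1 i, Finset.sum_comm]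
  refine Finset.sum_congr rfl fun a _ => ?_
  rw [Finset.sum_ite_eq Finset.univ (f a), if_pos (Finset.mem_univ _)]
  rfl

theorem pull_homX {F : SimpleGraph V} {B : SimpleGraph U₀} {Y₀ : Finset U₀} (H : HomX X Y F)
    (p : V → W) (x : U₀ → U) (hx : ∀ i ∈ Y₀, x i ∈ Y) (γ : Sym2 U₀ → List (Sym2 U))
    (hγ : ∀ i ∈ Y₀, ∀ j ∈ Y₀, B.Adj i j → ∃ w : X.Walk (x i) (x j), w.edges.Perm (γ s(i, j)) ∧
      ∀ v ∈ w.support, v ∈ Y)
    (f₁ : W → U₀) (h1 : ∀ a, ∀ i ∈ Y₀, H.f a = x i → f₁ (p a) = i)
    (h2 : ∀ a, ∀ i ∈ Y₀, ∀ j ∈ Y₀, B.Adj i j → (∃ e ∈ γ s(i, j), H.f a ∈ e) →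
      f₁ (p a) = i ∨ f₁ (p a) = j) :
    ∃ H' : HomX B Y₀ (quo F p), H'.f = f₁ := by
  have hst : ∀ (w w' : W) (e : Sym2 U₀), (e ∈ B.edgeSet ∧ ∀ j ∈ e, j ∈ Y₀) →
      (∑ a ∈ univ.filter (fun a => p a = w), ∑ b ∈ univ.filter (fun b => p b = w'),
        pb γ (H.y a b) e) ≠ 0 → ∃ a b, p a = w ∧ p b = w' ∧ pb γ (H.y a b) e ≠ 0 := by
    intro w w' e _ h
    obtain ⟨a, ha, h3⟩ := Finset.exists_ne_zero_of_sum_ne_zero h
    obtain ⟨b, hb, h4⟩ := Finset.exists_ne_zero_of_sum_ne_zero h3
    exact ⟨a, b, (Finset.mem_filter.mp ha).2, (Finset.mem_filter.mp hb).2, h4⟩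
  refine ⟨{ f := f₁
            t := fun w => ∑ a ∈ univ.filter (fun a => p a = w), if H.f a = x (f₁ w) then H.t a else 0
            y := fun w w' e => if w ≠ w' ∧ e ∈ B.edgeSet ∧ ∀ j ∈ e, j ∈ Y₀ then
              ∑ a ∈ univ.filter (fun a => p a = w), ∑ b ∈ univ.filter (fun b => p b = w'),
                pb γ (H.y a b) e else 0
            y_symm := ?_
            y_adj := ?_
            y_star := ?_
            eqn := ?_
            total := ?_ }, rfl⟩
  · intro w w'
    funext e
    by_cases h : w ≠ w' ∧ e ∈ B.edgeSet ∧ ∀ j ∈ e, j ∈ Y₀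
    · rw [if_pos h, if_pos ⟨h.1.symm, h.2⟩, Finset.sum_comm]
      exact Finset.sum_congr rfl fun b _ => Finset.sum_congr rfl fun a _ => by rw [H.y_symm]
    · rw [if_neg h, if_neg fun h' => h ⟨h'.1.symm, h'.2⟩]
  · intro w w' hne
    obtain ⟨e, he⟩ := Function.ne_iff.mp hne
    by_cases h : w ≠ w' ∧ e ∈ B.edgeSet ∧ ∀ j ∈ e, j ∈ Y₀
    · rw [if_pos h] at he
      obtain ⟨a, b, ha, hb, h3⟩ := hst w w' e h.2 he
      refine ⟨h.1, a, b, ha, hb, H.y_adj a b fun h0 => h3 ?_⟩
      rw [h0, pb_zero]
    · rw [if_neg h] at he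
      exact absurd rfl he
  · intro w w' e he
    beta_reduce at he
    by_cases h : w ≠ w' ∧ e ∈ B.edgeSet ∧ ∀ j ∈ e, j ∈ Y₀
    · rw [if_pos h] at he
      obtain ⟨a, b, ha, hb, h3⟩ := hst w w' e h.2 he
      obtain ⟨e', he', h4⟩ := pb_ne _ _ _ h3
      have h5 := (H.y_star a b).mem e' h4
      refine star_ne.mpr ⟨h.2.1, ?_, h.2.2⟩
      induction e using Sym2.inductionOn with
      | hf i j =>
        rw [← ha]
        rcases h2 a i (h.2.2 i (Sym2.mem_mk_left i j)) j (h.2.2 j (Sym2.mem_mk_right i j)) h.2.1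
          ⟨e', he', h5⟩ with h6 | h6
        · rw [h6]
          exact Sym2.mem_mk_left i j
        · rw [h6]
          exact Sym2.mem_mk_right i j
    · rw [if_neg h] at he
      exact absurd rfl he
  · intro w
    funext e
    rw [Finset.sum_apply, Pi.smul_apply, smul_eq_mul]
    by_cases h : e ∈ B.edgeSet ∧ ∀ j ∈ e, j ∈ Y₀
    · have e1 : (∑ w', if w ≠ w' ∧ e ∈ B.edgeSet ∧ ∀ j ∈ e, j ∈ Y₀ then
              ∑ a ∈ univ.filter (fun a => p a = w), ∑ b ∈ univ.filter (fun b => p b = w'),
                pb γ (H.y a b) e else 0) =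
          ∑ w', ∑ a ∈ univ.filter (fun a => p a = w), ∑ b ∈ univ.filter (fun b => p b = w'),
                pb γ (H.y a b) e := by
        refine Finset.sum_congr rfl fun w' _ => ?_
        by_cases hw : w = w'
        · rw [if_neg fun h' => h'.1 hw, ← hw]
          refine (sum_sym_zero _ (fun a b => pb γ (H.y a b) e) (fun a b => ?_) fun a => ?_).symm
          · show pb γ (H.y a b) e = pb γ (H.y b a) e
            rw [H.y_symm]
          · show pb γ (H.y a a) e = 0
            have h3 : H.y a a = 0 := by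
              by_contra h4
              exact (H.y_adj a a h4).ne rfl
            rw [h3, pb_zero]
        · rw [if_pos ⟨hw, h⟩]
      rw [e1, Finset.sum_comm]
      have e2 : ∀ a, (∑ w' : W, ∑ b ∈ univ.filter (fun b => p b = w'), pb γ (H.y a b) e) =
          pb γ (H.t a • star X Y (H.f a)) e := by
        intro a
        rw [← H.eqn a, pb_sum]
        exact Finset.sum_fiberwise univ p fun b => pb γ (H.y a b) e
      rw [Finset.sum_congr rfl fun a _ => e2 a, ← pb_sum, ← dl_push]
      induction e using Sym2.inductionOn with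
      | hf i j =>
        have hi := h.2 i (Sym2.mem_mk_left i j)
        have hj := h.2 j (Sym2.mem_mk_right i j)
        have hij : B.Adj i j := h.1
        obtain ⟨q, hq1, hq2⟩ := hγ i hi j hj hij
        rw [pb_dl q hq1 hq2]
        have h3 : ∀ l ∈ Y₀, f₁ w ≠ l →
            (∑ a ∈ univ.filter (fun a => p a = w), if H.f a = x l then H.t a else 0) = 0 := by
          intro l hl hne
          refine Finset.sum_eq_zero fun a ha => if_neg fun h4 => hne ?_
          rw [← (Finset.mem_filter.mp ha).2]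
          exact h1 a l hl h4
        by_cases h4 : f₁ w = i
        · have h5 : f₁ w ≠ j := by
            rw [h4]
            exact hij.ne
          have h6 : star B Y₀ (f₁ w) s(i, j) = 1 := by
            unfold HomV.star
            rw [if_pos ⟨h.1, by rw [h4]; exact Sym2.mem_mk_left i j, h.2⟩]
          rw [h6, mul_one, h3 j hj h5, add_zero, h4]
        · by_cases h5 : f₁ w = j
          · have h6 : star B Y₀ (f₁ w) s(i, j) = 1 := by
              unfold HomV.star
              rw [if_pos ⟨h.1, by rw [h5]; exact Sym2.mem_mk_right i j, h.2⟩]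
            rw [h6, mul_one, h3 i hi h4, zero_add, h5]
          · have h6 : star B Y₀ (f₁ w) s(i, j) = 0 := by
              unfold HomV.star
              rw [if_neg fun h' => ?_]
              rcases Sym2.mem_iff.mp h'.2.1 with h7 | h7
              · exact h4 h7
              · exact h5 h7
            rw [h6, mul_zero, h3 i hi h4, h3 j hj h5, add_zero]
    · have h6 : star B Y₀ (f₁ w) e = 0 := by
        unfold HomV.star
        rw [if_neg fun h' => h ⟨h'.1, h'.2.2⟩]
      rw [h6, mul_zero]
      refine Finset.sum_eq_zero fun w' _ => ?_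
      rw [if_neg fun h' => h h'.2]
  · intro i hi
    rw [← H.total (x i) (hx i hi), Finset.sum_filter, Finset.sum_filter,
      ← Finset.sum_fiberwise univ p fun a => if H.f a = x i then H.t a else 0]
    refine Finset.sum_congr rfl fun w _ => ?_
    by_cases h : f₁ w = i
    · rw [if_pos h, h]
    · rw [if_neg h]
      refine (Finset.sum_eq_zero fun a ha => if_neg fun h3 => h ?_).symm
      rw [← (Finset.mem_filter.mp ha).2]
      exact h1 a i hi h3

end Pool.Agent.HomZ
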