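import Pool.Agent.HomZ.Iso
import Pool.Agent.HomZ.Pull

/-!
# Coarse graphs contain no homological copy (helper20)

For every `e : Sym2 U₀` with `e = s(i, j)`, `i, j ∈ Y₀` adjacent in `B`, choose one walk of `Fat` (for one orientation of
`e`, `e.out`); the pull-back of a chain `K` of `X` is `e ↦ ((walk e).edges.map K).sum`.
`walk_sum`: along a walk of live vertices `(w.edges.map (dl X Y r)).sum = r (start) + r (end)` (`dl_mk`), so the pull-back
of `dl X Y r` is `dl B Y₀ (fun i => r (z i))`. For a part `w` of `Coarse`: `P_w ⊆ ball (c_w, k)`, `i₀ w` from `Fat` for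
`H.f c_w` (`hf`: `Near F` maps to `Near X`). `pull_homX` (HomZ/Pull) gives `HomX B Y₀ (quo F π)`.
-/

set_option autoImplicit false

namespace Pool.Agent.HomZ

open Finset Classical Pool.Agent.HomV Pool.Agent.HomI Pool.Agent.HomW

variable {U : Type} [Fintype U] {V : Type} [Fintype V] {X : SimpleGraph U} {Y : Finset U}

theorem walk_sum {u v : U} (w : X.Walk u v) (hw : ∀ x ∈ w.support, x ∈ Y) (r : U → ZMod 2) :
    (w.edges.map (dl X Y r)).sum = r u + r v := by
  have z2 : ∀ a : ZMod 2, a + a = 0 := by decide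
  induction w with
  | nil =>
    rw [SimpleGraph.Walk.edges_nil, List.map_nil, List.sum_nil, z2]
  | cons hadj w ih =>
    rename_i u v' v
    rw [SimpleGraph.Walk.edges_cons, List.map_cons, List.sum_cons, ih fun x hx => hw x (by
      rw [SimpleGraph.Walk.support_cons]
      exact List.mem_cons_of_mem _ hx), dl_mk, if_pos ⟨hadj, hw _ (by simp), hw _ (by simp)⟩]
    calc r u + r v' + (r v' + r v) = r u + r v + (r v' + r v') := by ring
      _ = r u + r v := by rw [z2, add_zero]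

private theorem near_map {F : SimpleGraph V} {f : V → U}
    (hf : ∀ a b, F.Adj a b → X.Adj (f a) (f b)) {d : ℕ} {a b : V} (h : Near F d a b) :
    Near X d (f a) (f b) := by
  obtain ⟨w, hw⟩ := h
  let φ : F →g X := ⟨f, fun {a b} hab => hf a b hab⟩
  exact ⟨w.map φ, by rw [SimpleGraph.Walk.length_map]; exact hw⟩

/-- one walk for every unordered edge -/
private theorem exists_gamma {U₀ : Type} {B : SimpleGraph U₀} {Y₀ : Finset U₀} {z : U₀ → U}
    {R : U₀ → U₀ → Set U}
    (hw : ∀ i ∈ Y₀, ∀ j ∈ Y₀, B.Adj i j → ∃ w : X.Walk (z i) (z j),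
      ∀ v ∈ w.support, v ∈ Y ∧ v ∈ R i j) :
    ∃ γ : Sym2 U₀ → List (Sym2 U), ∀ i ∈ Y₀, ∀ j ∈ Y₀, B.Adj i j →
      ∃ w : X.Walk (z i) (z j), w.edges.Perm (γ s(i, j)) ∧ (∀ v ∈ w.support, v ∈ Y) ∧
        ((∀ v ∈ w.support, v ∈ R i j) ∨ (∀ v ∈ w.support, v ∈ R j i)) := by
  have h : ∀ e : Sym2 U₀, ∃ l : List (Sym2 U), ∀ i ∈ Y₀, ∀ j ∈ Y₀, B.Adj i j → s(i, j) = e →
      ∃ w : X.Walk (z i) (z j), w.edges.Perm l ∧ (∀ v ∈ w.support, v ∈ Y) ∧
        ((∀ v ∈ w.support, v ∈ R i j) ∨ (∀ v ∈ w.support, v ∈ R j i)) := by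
    intro e
    induction e using Sym2.inductionOn with
    | hf i j =>
      by_cases hc : i ∈ Y₀ ∧ j ∈ Y₀ ∧ B.Adj i j
      · obtain ⟨w, h1⟩ := hw i hc.1 j hc.2.1 hc.2.2
        refine ⟨w.edges, ?_⟩
        intro i' hi' j' hj' hadj he
        rcases Sym2.eq_iff.mp he with ⟨rfl, rfl⟩ | ⟨rfl, rfl⟩
        · exact ⟨w, List.Perm.refl _, fun v hv => (h1 v hv).1, Or.inl fun v hv => (h1 v hv).2⟩
        · refine ⟨w.reverse, ?_, ?_, Or.inr ?_⟩
          · rw [SimpleGraph.Walk.edges_reverse]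
            exact List.reverse_perm _
          · intro v hv
            rw [SimpleGraph.Walk.support_reverse, List.mem_reverse] at hv
            exact (h1 v hv).1
          · intro v hv
            rw [SimpleGraph.Walk.support_reverse, List.mem_reverse] at hv
            exact (h1 v hv).2
      · refine ⟨[], ?_⟩
        intro i' hi' j' hj' hadj he
        exfalso
        rcases Sym2.eq_iff.mp he with ⟨rfl, rfl⟩ | ⟨rfl, rfl⟩
        · exact hc ⟨hi', hj', hadj⟩
        · exact hc ⟨hj', hi', hadj.symm⟩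
  choose γ hγ using h
  exact ⟨γ, fun i hi j hj hadj => hγ s(i, j) i hi j hj hadj rfl⟩

theorem no_copy_coarse {k Q : ℕ}
    (hQ : ∀ {U₀ : Type} [Fintype U₀] (B : SimpleGraph U₀) (Y₀ : Finset U₀), Good B Y₀ Q →
      ∀ {W : Type} [Fintype W] (F : SimpleGraph W), InClass k F → IsEmpty (HomX B Y₀ F))
    (hF : Fat X Y Q k) {F : SimpleGraph V} (hC : Coarse k F) (H : HomX X Y F)
    (hf : ∀ a b, F.Adj a b → X.Adj (H.f a) (H.f b)) : False := by
  obtain ⟨U₀, _, B, Y₀, z, R, hG, hz, hw, hball⟩ := hF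
  obtain ⟨W, _, π, hπ, hcls⟩ := hC
  choose c hc using hπ
  choose i₀ hi₀ using hball
  obtain ⟨γ, hγ⟩ := exists_gamma hw
  obtain ⟨H', _⟩ := pull_homX (B := B) (Y₀ := Y₀) H π z hz γ
    (fun i hi j hj hadj => by
      obtain ⟨w, h1, h2, _⟩ := hγ i hi j hj hadj
      exact ⟨w, h1, h2⟩)
    (fun w => i₀ (H.f (c w)))
    (fun a i hi h => by
      have h1 := near_map hf (hc (π a) a rfl)
      rw [h] at h1
      exact ((hi₀ (H.f (c (π a)))).1 i hi h1).symm)
    (fun a i hi j hj hadj h => by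
      have h1 := near_map hf (hc (π a) a rfl)
      obtain ⟨w, hw1, _, hw3⟩ := hγ i hi j hj hadj
      obtain ⟨e, he, hae⟩ := h
      have he' : e ∈ w.edges := hw1.mem_iff.mpr he
      have h2 : H.f a ∈ w.support := by
        induction e using Sym2.inductionOn with
        | hf u v =>
          rcases Sym2.mem_iff.mp hae with h3 | h3
          · rw [h3]
            exact w.fst_mem_support_of_mem_edges he'
          · rw [h3]
            exact w.snd_mem_support_of_mem_edges he'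
      rcases hw3 with hw3 | hw3
      · exact (hi₀ (H.f (c (π a)))).2 i hi j hj hadj _ (hw3 _ h2) h1
      · exact ((hi₀ (H.f (c (π a)))).2 j hj i hi hadj.symm _ (hw3 _ h2) h1).symm)
  exact (hQ B Y₀ hG (quo F π) hcls).false H'

end Pool.Agent.HomZ
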