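import Pool.Agent.HomW.Def

/-!
# The coarse classes

Graphs whose vertices can be divided into parts of bounded radius such that the contraction of the
parts gives a graph in the class `InClass k`, and their closure under gluing and thin hierarchies.
-/

set_option autoImplicit false

namespace Pool.Agent.HomZ

open Pool.Agent.HomV Pool.Agent.HomI Pool.Agent.HomW

/-- the graph obtained from `F` by the contraction of the fibres of `π` -/
def quo {V W : Type} (F : SimpleGraph V) (π : V → W) : SimpleGraph W where
  Adj w w' := w ≠ w' ∧ ∃ a b, π a = w ∧ π b = w' ∧ F.Adj a b
  symm := ⟨fun _ _ h => ⟨h.1.symm, by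
    obtain ⟨a, b, ha, hb, hab⟩ := h.2
    exact ⟨b, a, hb, ha, hab.symm⟩⟩⟩
  loopless := ⟨fun _ h => h.1 rfl⟩

/-- the vertices of `F` can be divided into parts, each of which consists of vertices at distance
at most `k` (in `F`) from one vertex, such that the contraction of the parts gives a graph which is
obtained by clique sums of order at most `k` from `k`-nearly embeddable graphs -/
def Coarse (k : ℕ) {V : Type} (F : SimpleGraph V) : Prop :=
  ∃ (W : Type) (_ : Fintype W) (π : V → W),
    (∀ w, ∃ c, ∀ a, π a = w → Near F k c a) ∧ InClass k (quo F π)

/-- The class `M k 0` is the closure under gluing along complete subgraphs of the graphs with the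
property `Coarse k` and of the graphs without an immersion of the complete graph with `k` vertices.
The class `M k (n + 1)` is the closure under gluing along complete subgraphs of the graphs whose
vertex set has a hierarchy of thin cuts down to parts which induce graphs in `M k n`. -/
def M {V : Type} (k : ℕ) : ℕ → SimpleGraph V → Prop
  | 0, F => Glue (fun F => Coarse k F ∨ IsEmpty (CliqueImm k F)) F
  | n + 1, F => Glue (fun F => Dec (M k n) k F Set.univ) F

end Pool.Agent.HomZ
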