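import Pool.Agent.HomZ.Def
import Pool.Agent.HomV.ChDef

/-!
# The properties of the base graph
-/

set_option autoImplicit false

namespace Pool.Agent.HomZ

open Finset Classical Pool.Agent.HomV Pool.Agent.HomW

/-- the subgraph of the live vertices `Y` of `X` contains a fat subdivision of a good graph `B`
(over the live vertices `Y₀`): `z i` is the branch vertex of `i`, `R i j` contains the walk for the
edge `ij`, and the regions met by a ball of radius `d` belong to edges with a common end -/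
def Fat {U : Type} [Fintype U] (X : SimpleGraph U) (Y : Finset U) (Q d : ℕ) : Prop :=
  ∃ (U₀ : Type) (_ : Fintype U₀) (B : SimpleGraph U₀) (Y₀ : Finset U₀) (z : U₀ → U)
    (R : U₀ → U₀ → Set U),
    Good B Y₀ Q ∧ (∀ i ∈ Y₀, z i ∈ Y) ∧
    (∀ i ∈ Y₀, ∀ j ∈ Y₀, B.Adj i j → ∃ w : X.Walk (z i) (z j), ∀ v ∈ w.support, v ∈ Y ∧ v ∈ R i j) ∧
    (∀ c : U, ∃ i₀ : U₀, (∀ i ∈ Y₀, Near X d c (z i) → i = i₀) ∧
      ∀ i ∈ Y₀, ∀ j ∈ Y₀, B.Adj i j → ∀ v ∈ R i j, Near X d c v → i₀ = i ∨ i₀ = j)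

/-- `Y` is good and fat, and (`n` times) for any `k` vertices more than two thirds of the marked
vertices of `Y` are in a set `Y'` which is again good and fat, all of whose vertices have distance
greater than `k` from these vertices -/
def Iso {U : Type} [Fintype U] (X : SimpleGraph U) (D : Finset U) (Q k : ℕ) : ℕ → Finset U → Prop
  | 0, Y => Good X Y Q ∧ Fat X Y Q k
  | n + 1, Y => (Good X Y Q ∧ Fat X Y Q k) ∧ ∀ T : Finset U, T.card ≤ k → ∃ Y' ⊆ Y,
      3 * (Y.filter fun i => i ∈ D ∧ i ∉ Y').card < (Y.filter fun i => i ∈ D).card ∧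
      (∀ c ∈ T, ∀ i ∈ Y', ¬ Near X k c i) ∧ Iso X D Q k n Y'

theorem Iso.good {U : Type} [Fintype U] {X : SimpleGraph U} {D : Finset U} {Q k : ℕ} :
    ∀ {n : ℕ} {Y : Finset U}, Iso X D Q k n Y → Good X Y Q
  | 0, _, h => h.1
  | _ + 1, _, h => h.1.1

theorem Iso.fat {U : Type} [Fintype U] {X : SimpleGraph U} {D : Finset U} {Q k : ℕ} :
    ∀ {n : ℕ} {Y : Finset U}, Iso X D Q k n Y → Fat X Y Q k
  | 0, _, h => h.2
  | _ + 1, _, h => h.1.2

end Pool.Agent.HomZ
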