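import Pool.Agent.HomZ.SubDef

/-!
# Subdivisions: connected regions and distances (helper61)
-/

set_option autoImplicit false

namespace Pool.Agent.HomZ

open Finset Classical Pool.Agent.HomV Pool.Agent.HomW

variable {U₀ : Type} [Fintype U₀] {B : SimpleGraph U₀} {L : ℕ}

private theorem adj_lr (q : {q : U₀ × U₀ // B.Adj q.1 q.2}) (t : Fin L) (h : t.val = 0) :
    (sub B L).Adj (Sum.inl q.1.1) (Sum.inr (q, t)) := by
  show q.1.1 = q.1.1 ∧ t.val = 0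
  exact ⟨rfl, h⟩

private theorem adj_succ (q : {q : U₀ × U₀ // B.Adj q.1 q.2}) (t t' : Fin L)
    (h : t.val + 1 = t'.val) : (sub B L).Adj (Sum.inr (q, t)) (Sum.inr (q, t')) := by
  show (q = q ∧ (t.val + 1 = t'.val ∨ t'.val + 1 = t.val)) ∨
    (q.1 = q.1.swap ∧ t.val + 1 = L ∧ t'.val + 1 = L)
  exact Or.inl ⟨rfl, Or.inl h⟩

private theorem adj_mid {i j : U₀} (hij : B.Adj i j) (t : Fin L) (h : t.val + 1 = L) :
    (sub B L).Adj (Sum.inr (⟨(i, j), hij⟩, t)) (Sum.inr (⟨(j, i), hij.symm⟩, t)) := by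
  show ((⟨(i, j), hij⟩ : {q : U₀ × U₀ // B.Adj q.1 q.2}) = ⟨(j, i), hij.symm⟩ ∧
    (t.val + 1 = t.val ∨ t.val + 1 = t.val)) ∨ ((j, i) = (i, j).swap ∧ t.val + 1 = L ∧ t.val + 1 = L)
  exact Or.inr ⟨rfl, h, h⟩

private theorem sub_half {Y₀ : Finset U₀} {s : SW B L → Prop}
    (hs : ∀ u ∈ (regS B L Y₀ : Set (SW B L)), ∀ v ∈ (regS B L Y₀ : Set (SW B L)),
      (sub B L).Adj u v → (s u ↔ s v))
    (q : {q : U₀ × U₀ // B.Adj q.1 q.2}) (h1 : q.1.1 ∈ Y₀) (h2 : q.1.2 ∈ Y₀) :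
    ∀ (n : ℕ) (hn : n < L), (s (Sum.inl q.1.1) ↔ s (Sum.inr (q, ⟨n, hn⟩))) := by
  intro n
  induction n with
  | zero =>
    intro hn
    exact hs _ (Finset.mem_coe.mpr (mem_regS_inl.mpr h1)) _
      (Finset.mem_coe.mpr (mem_regS_inr.mpr ⟨h1, h2⟩)) (adj_lr q ⟨0, hn⟩ rfl)
  | succ n ih =>
    intro hn
    exact (ih (by omega)).trans (hs _ (Finset.mem_coe.mpr (mem_regS_inr.mpr ⟨h1, h2⟩)) _
      (Finset.mem_coe.mpr (mem_regS_inr.mpr ⟨h1, h2⟩))
      (adj_succ q ⟨n, by omega⟩ ⟨n + 1, hn⟩ rfl))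

/-- `s (inl i) ↔ s (inr ((i, j), t))` by induction on `t` -/
theorem sub_connP (hL : 0 < L) {Y₀ : Finset U₀} (hc : ConnP B (Y₀ : Set U₀)) :
    ConnP (sub B L) (regS B L Y₀ : Set (SW B L)) := by
  intro s hs
  have hb : ∀ i ∈ (Y₀ : Set U₀), ∀ j ∈ (Y₀ : Set U₀), (s (Sum.inl i) ↔ s (Sum.inl j)) := by
    refine hc (fun i => s (Sum.inl i)) fun i hi j hj hij => ?_
    have hi' : i ∈ Y₀ := hi
    have hj' : j ∈ Y₀ := hj
    have h1 := sub_half hs ⟨(i, j), hij⟩ hi' hj' (L - 1) (by omega)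
    have h2 := sub_half hs ⟨(j, i), hij.symm⟩ hj' hi' (L - 1) (by omega)
    have h3 := hs (Sum.inr (⟨(i, j), hij⟩, ⟨L - 1, by omega⟩))
      (Finset.mem_coe.mpr (mem_regS_inr.mpr ⟨hi', hj'⟩))
      (Sum.inr (⟨(j, i), hij.symm⟩, ⟨L - 1, by omega⟩))
      (Finset.mem_coe.mpr (mem_regS_inr.mpr ⟨hj', hi'⟩))
      (adj_mid hij ⟨L - 1, by omega⟩ (Nat.sub_add_cancel hL))
    exact (h1.trans h3).trans h2.symm
  have hbase : ∀ u ∈ (regS B L Y₀ : Set (SW B L)), base u ∈ Y₀ ∧ (s u ↔ s (Sum.inl (base u))) := by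
    rintro (i | ⟨q, t⟩) hu
    · exact ⟨mem_regS_inl.mp (Finset.mem_coe.mp hu), Iff.rfl⟩
    · have h1 := mem_regS_inr.mp (Finset.mem_coe.mp hu)
      exact ⟨h1.1, (sub_half hs q h1.1 h1.2 t.val t.isLt).symm⟩
  intro u hu v hv
  obtain ⟨hu1, hu2⟩ := hbase u hu
  obtain ⟨hv1, hv2⟩ := hbase v hv
  exact (hu2.trans (hb _ hu1 _ hv1)).trans hv2.symm

/-- every step of a walk moves the base by at most one step -/
theorem near_base {d : ℕ} {u v : SW B L} (h : Near (sub B L) d u v) :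
    Near B d (base u) (base v) := by
  have hstep : ∀ a b : SW B L, (sub B L).Adj a b → base a = base b ∨ B.Adj (base a) (base b) := by
    rintro (i | ⟨q, s⟩) (j | ⟨q', s'⟩) hab
    · exact absurd hab id
    · have h : q'.1.1 = i ∧ s'.val = 0 := hab
      exact Or.inl (show i = q'.1.1 from h.1.symm)
    · have h : q.1.1 = j ∧ s.val = 0 := hab
      exact Or.inl (show q.1.1 = j from h.1)
    · have h0 : (q = q' ∧ (s.val + 1 = s'.val ∨ s'.val + 1 = s.val)) ∨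
          (q'.1 = q.1.swap ∧ s.val + 1 = L ∧ s'.val + 1 = L) := hab
      rcases h0 with h | h
      · left
        show q.1.1 = q'.1.1
        rw [h.1]
      · right
        show B.Adj q.1.1 q'.1.1
        rw [h.1]
        exact q.2
  obtain ⟨w, hw⟩ := h
  have key : ∀ {a b : SW B L} (w : (sub B L).Walk a b), Near B w.length (base a) (base b) := by
    intro a b w
    induction w with
    | nil => exact ⟨SimpleGraph.Walk.nil, le_rfl⟩
    | cons hab w ih =>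
      obtain ⟨w', hw'⟩ := ih
      rcases hstep _ _ hab with h | h
      · rw [h]
        exact ⟨w', by rw [SimpleGraph.Walk.length_cons]; omega⟩
      · exact ⟨SimpleGraph.Walk.cons h w', by
          rw [SimpleGraph.Walk.length_cons, SimpleGraph.Walk.length_cons]; omega⟩
  obtain ⟨w', hw'⟩ := key w
  exact ⟨w', hw'.trans hw⟩

end Pool.Agent.HomZ
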