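import Pool.Agent.HomZ.Cell

/-!
# Subdivisions
-/

set_option autoImplicit false

namespace Pool.Agent.HomZ

open Finset Classical Pool.Agent.HomV Pool.Agent.HomW

variable {U₀ : Type}

/-- the vertices of the subdivision: the vertices of `B` and, for every ordered pair `(i, j)` of
adjacent vertices, `L` vertices on the half of the edge `ij` at `i` -/
abbrev SW (B : SimpleGraph U₀) (L : ℕ) : Type := U₀ ⊕ ({q : U₀ × U₀ // B.Adj q.1 q.2} × Fin L)

/-- adjacency in the subdivision: `i`, `(i, j, 0)`, …, `(i, j, L - 1)`, `(j, i, L - 1)`, …,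
`(j, i, 0)`, `j` -/
def SR (B : SimpleGraph U₀) (L : ℕ) : SW B L → SW B L → Prop
  | Sum.inl i, Sum.inr (q, s) => q.1.1 = i ∧ s.val = 0
  | Sum.inr (q, s), Sum.inl i => q.1.1 = i ∧ s.val = 0
  | Sum.inr (q, s), Sum.inr (q', s') => (q = q' ∧ (s.val + 1 = s'.val ∨ s'.val + 1 = s.val)) ∨
      (q'.1 = q.1.swap ∧ s.val + 1 = L ∧ s'.val + 1 = L)
  | Sum.inl _, Sum.inl _ => False

/-- the subdivision -/
def sub (B : SimpleGraph U₀) (L : ℕ) : SimpleGraph (SW B L) where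
  Adj := SR B L
  symm := ⟨by
    rintro (i | ⟨q, s⟩) (j | ⟨q', s'⟩) h
    · exact h
    · exact h
    · exact h
    · rcases h with h | h
      · exact Or.inl ⟨h.1.symm, h.2.symm⟩
      · exact Or.inr ⟨by rw [h.1, Prod.swap_swap], h.2.2, h.2.1⟩⟩
  loopless := ⟨by
    rintro (i | ⟨q, s⟩) h
    · exact h
    · rcases h with h | h
      · omega
      · have h1 := congrArg Prod.fst h.1
        exact q.2.ne h1⟩

/-- the end of the half -/
def base {B : SimpleGraph U₀} {L : ℕ} : SW B L → U₀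
  | Sum.inl i => i
  | Sum.inr (q, _) => q.1.1

/-- the vertices of the subdivision over a set of live vertices of `B` -/
noncomputable def regS (B : SimpleGraph U₀) (L : ℕ) [Fintype U₀] (Y₀ : Finset U₀) :
    Finset (SW B L) :=
  univ.filter fun v => match v with
    | Sum.inl i => i ∈ Y₀
    | Sum.inr (q, _) => q.1.1 ∈ Y₀ ∧ q.1.2 ∈ Y₀

theorem mem_regS_inl {B : SimpleGraph U₀} {L : ℕ} [Fintype U₀] {Y₀ : Finset U₀} {i : U₀} :
    (Sum.inl i : SW B L) ∈ regS B L Y₀ ↔ i ∈ Y₀ := by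
  unfold regS
  rw [Finset.mem_filter]
  exact ⟨fun h => h.2, fun h => ⟨Finset.mem_univ _, h⟩⟩

theorem mem_regS_inr {B : SimpleGraph U₀} {L : ℕ} [Fintype U₀] {Y₀ : Finset U₀}
    {q : {q : U₀ × U₀ // B.Adj q.1 q.2}} {s : Fin L} :
    (Sum.inr (q, s) : SW B L) ∈ regS B L Y₀ ↔ q.1.1 ∈ Y₀ ∧ q.1.2 ∈ Y₀ := by
  unfold regS
  rw [Finset.mem_filter]
  exact ⟨fun h => h.2, fun h => ⟨Finset.mem_univ _, h⟩⟩

end Pool.Agent.HomZ
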